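import Mathlib

/-!
# A pre-upho coloring whose monoid has two elements without a greatest common left divisor
-/

set_option autoImplicit false

namespace Pool.Agent.Results.MP_4cc90a_co.NoGcd

/-! ### The definitions -/

/-- the atoms of `L` -/
abbrev Atom (L : Type) [Lattice L] [BoundedOrder L] : Type := {s : L // IsAtom s}

/-- `rk` is a rank function: `L` is graded. -/
def IsRank {L : Type} [Lattice L] [BoundedOrder L] (rk : L → ℕ) : Prop :=
  rk ⊥ = 0 ∧ ∀ x y : L, x ⋖ y → rk y = rk x + 1

/-- There is a rank-preserving and color-preserving embedding of the interval `[x, z]` into `L`. (Only the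
values of `φ` on the interval matter.) -/
def Embeds {L : Type} [Lattice L] [BoundedOrder L] (rk : L → ℕ) (c : L → L → Atom L) (x z : L) : Prop :=
  ∃ φ : L → L, (∀ u ∈ Set.Icc x z, ∀ v ∈ Set.Icc x z, (φ u ≤ φ v ↔ u ≤ v)) ∧
    (∀ u ∈ Set.Icc x z, rk u = rk x + rk (φ u)) ∧
    ∀ u ∈ Set.Icc x z, ∀ v ∈ Set.Icc x z, u ⋖ v → φ u ⋖ φ v ∧ c (φ u) (φ v) = c u v

/-- `c` is a pre-upho coloring (only the values of `c` on the cover relations matter). -/
def PreUpho {L : Type} [Lattice L] [BoundedOrder L] (rk : L → ℕ) (c : L → L → Atom L) : Prop :=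
  (∀ s : Atom L, c ⊥ s = s) ∧
    ∀ x : L, x ≠ ⊥ → x ≠ ⊤ → ∃ z : L, IsLUB {y | x ⋖ y} z ∧ Embeds rk c x z

/-- `ChainWord c x z w`: the word `w` is the sequence of the colors of a saturated chain from `x` to `z`. -/
inductive ChainWord {L : Type} [Lattice L] [BoundedOrder L] (c : L → L → Atom L) :
    L → L → List (Atom L) → Prop
  | nil (x : L) : ChainWord c x x []
  | cons {x y z : L} {w : List (Atom L)} (h : x ⋖ y) (hw : ChainWord c y z w) :
      ChainWord c x z (c x y :: w)

/-- The relations of the monoid: the words of two saturated chains from `⊥` to the join of two atoms, the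
first of which passes through the first atom and the second through the second atom, are equal. -/
def Rel {L : Type} [Lattice L] [BoundedOrder L] (c : L → L → Atom L) (u v : FreeMonoid (Atom L)) : Prop :=
  ∃ (s t : Atom L) (u' v' : List (Atom L)), ChainWord c (s : L) ((s : L) ⊔ t) u' ∧
    ChainWord c (t : L) ((s : L) ⊔ t) v' ∧ u = FreeMonoid.ofList (c ⊥ s :: u') ∧
    v = FreeMonoid.ofList (c ⊥ t :: v')

/-- the monoid of a coloring -/
abbrev Mon {L : Type} [Lattice L] [BoundedOrder L] (c : L → L → Atom L) : Type := PresentedMonoid (Rel c)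

/-- `d` is a greatest common left divisor of `u` and `v`. -/
def IsGcld {M : Type} [Monoid M] (u v d : M) : Prop :=
  (∃ a, u = d * a) ∧ (∃ a, v = d * a) ∧ ∀ d' : M, (∃ a, u = d' * a) → (∃ a, v = d' * a) → ∃ a, d = d' * a

/-! ### The lattice -/

/-- the 22 elements: `0` is the bottom, `1, ..., 7` are the atoms, `8, ..., 15` have rank two, `16, ..., 20`
have rank three and `21` is the top -/
def P : Type := Fin 22

instance : Fintype P := inferInstanceAs (Fintype (Fin 22))

instance : DecidableEq P := inferInstanceAs (DecidableEq (Fin 22))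

/-- the number of the element -/
def nm (x : P) : ℕ := Fin.val x

/-- the element with a number -/
def el (n : ℕ) : P := Fin.ofNat 22 n

/-- the up-sets as bit masks -/
def upT : List ℕ := [4194303, 2294530, 2426116, 2491912, 2627600, 2631712, 3162176, 3178624, 2162944, 2228736,
  2360320, 2623488, 2625536, 2629632, 3162112, 3178496, 2162688, 2228224, 2359296, 2621440,
  3145728, 2097152]

/-- the table of joins -/
def supT : ℕ :=
  210594540250795430685199778784719815098791582090502088322115276666437688767243377580045463997987466731681591496392410765038617612220437941774303927983982089978331738241710951909736165498083629974185245813790242262549912246983376535562807022330410227231926999117242996885621697024978686608708030294608028104470410916443009334739489689471107506971722004994636684720409972155082570038400495543514765285832604635954409793353164392545537478582297246127549313816826933542763857182083277755931483380872573973017420610244683479980871502556631266764148267175522209234508784232721149483867762646387658377652954403475208316230121258262874807806223861041595765885563840332401244835514060931038221481298448910120395145725653819753727116019744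

/-- the table of meets -/
def infT : ℕ :=
  210271046333359493003655693103023019425445467846236316766272824484325776575031077047895637795472834561221244707184399101685313563329153011194691611235680040163332248179545776983009314078103406930060258445381855719256995895533011488454440123126842811739919063659767325537816663409529740793620513061678445560655612381822910138807014987641851476205721737704400494154999670887426909978501721042078144942921970990935582086701277072985701514121902738041965609225964834239827429288002823184464019439179408751016985303162606598690829204577759676891219189598389658326269724640947213431855704410180491367488342347341160746555359895002770285645057941861614824746149342872332259886163688862337384246522735846315299608082499002243782465814528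

/-- the table of colors -/
def colT : ℕ :=
  10028311440514068127866656132605705492031902021866414232333817066059196178250747235911898453123013611478654074464634385777362647900754199384101092688059186235643996900734206655885011722005844117954624936416303741489480304107156354414360217031980452067381134113402056626161274128373969635012205066372014333807554797046366792672998036457249917534797496344635816678100092317337194582120566298652275134309011196475361581207159371296324874366474719270276994181412654132019387035471941354552881739255407160924656472838541165035475816888895064853029474836843694484226827213504865634722773015804560870979398310038908895893564296017576242939905051482893133440035603153119535811805188934374374828726869826122801442522057677647368337590305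

/-- the upper covers -/
def covT : List (List ℕ) := [[1, 2, 3, 4, 5, 6, 7], [8, 9], [8, 10], [9, 10], [11, 12], [11, 13], [14], [15], [16], [17],
  [18], [19], [19], [19], [20], [20], [21], [21], [21], [21], [21], []]

/-- the ranks -/
def rkT : List ℕ := [0, 1, 1, 1, 1, 1, 1, 1, 2, 2, 2, 2, 2, 2, 2, 2, 3, 3, 3, 3, 3, 4]

/-- lookup in a table -/
def tab (T : ℕ) (x y : P) : P := el ((T >>> (5 * (22 * nm x + nm y))) % 32)

instance : LE P := ⟨fun x y => (upT.getD (nm x) 0).testBit (nm y) = true⟩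

instance : DecidableLE P := fun x y =>
  inferInstanceAs (Decidable ((upT.getD (nm x) 0).testBit (nm y) = true))

instance : LT P := ⟨fun x y => x ≤ y ∧ ¬ y ≤ x⟩

instance : DecidableLT P := fun x y => inferInstanceAs (Decidable (x ≤ y ∧ ¬ y ≤ x))

instance : PartialOrder P where
  le_refl := by decide +kernel
  le_trans := by decide +kernel
  lt_iff_le_not_ge := fun _ _ => Iff.rfl
  le_antisymm := by decide +kernel

instance : Lattice P where
  sup := tab supT
  inf := tab infT
  le_sup_left := by decide +kernel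
  le_sup_right := by decide +kernel
  sup_le := by decide +kernel
  inf_le_left := by decide +kernel
  inf_le_right := by decide +kernel
  le_inf := by decide +kernel

instance : BoundedOrder P where
  top := el 21
  bot := el 0
  le_top := by decide +kernel
  bot_le := by decide +kernel

instance (x y : P) : Decidable (x ⋖ y) :=
  inferInstanceAs (Decidable (x < y ∧ ∀ c, x < c → ¬ c < y))

/-- the rank -/
def rk (x : P) : ℕ := rkT.getD (nm x) 0

/-- the list of upper covers -/
def covs (x : P) : List P := (covT.getD (nm x) []).map el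

lemma cov_iff : ∀ x y : P, x ⋖ y ↔ y ∈ covs x := by decide +kernel

lemma atom_iff (s : P) : IsAtom s ↔ s ∈ covs ⊥ := by
  rw [← bot_covBy_iff, cov_iff]

lemma col_atom : ∀ x y : P, tab colT x y ∈ covs ⊥ := by decide +kernel

/-- the coloring -/
def c (x y : P) : Atom P := ⟨tab colT x y, (atom_iff _).2 (col_atom x y)⟩

lemma isRank : IsRank rk := by
  refine ⟨by decide +kernel, ?_⟩
  have : ∀ x y : P, x ⋖ y → rk y = rk x + 1 := by decide +kernel
  exact this

lemma lub_atoms : IsLUB {s : P | IsAtom s} ⊤ := by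
  have : ∀ y : P, (∀ s ∈ covs (⊥ : P), s ≤ y) → (⊤ : P) ≤ y := by decide +kernel
  refine ⟨fun _ _ => le_top, fun y hy => this y fun s hs => hy ((atom_iff s).2 hs)⟩

/-- the joins of the upper covers -/
def zT : List ℕ := [0, 21, 21, 21, 19, 19, 14, 15, 16, 17, 18, 19, 19, 19, 20, 20, 21, 21, 21, 21, 21, 0]

/-- the embeddings: the image of `u` under the embedding of the interval which begins at `x` -/
def phiT : List (List ℕ) := [[], [0, 0, 0, 0, 0, 0, 0, 0, 4, 5, 0, 0, 0, 0, 0, 0, 12, 13, 0, 0, 0, 19], [0, 0, 0, 0, 0, 0,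
  0, 0, 6, 0, 7, 0, 0, 0, 0, 0, 14, 0, 15, 0, 0, 20], [0, 0, 0, 0, 0, 0, 0, 0, 0, 6, 7, 0, 0,
  0, 0, 0, 0, 14, 15, 0, 0, 20], [0, 0, 0, 0, 0, 0, 0, 0, 0, 0, 0, 4, 5, 0, 0, 0, 0, 0, 0, 11,
  0, 0], [0, 0, 0, 0, 0, 0, 0, 0, 0, 0, 0, 4, 0, 5, 0, 0, 0, 0, 0, 11, 0, 0], [0, 0, 0, 0, 0,
  0, 0, 0, 0, 0, 0, 0, 0, 0, 5, 0, 0, 0, 0, 0, 0, 0], [0, 0, 0, 0, 0, 0, 0, 0, 0, 0, 0, 0, 0,
  0, 0, 1, 0, 0, 0, 0, 0, 0], [0, 0, 0, 0, 0, 0, 0, 0, 0, 0, 0, 0, 0, 0, 0, 0, 5, 0, 0, 0, 0,
  0], [0, 0, 0, 0, 0, 0, 0, 0, 0, 0, 0, 0, 0, 0, 0, 0, 0, 5, 0, 0, 0, 0], [0, 0, 0, 0, 0, 0,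
  0, 0, 0, 0, 0, 0, 0, 0, 0, 0, 0, 0, 1, 0, 0, 0], [0, 0, 0, 0, 0, 0, 0, 0, 0, 0, 0, 0, 0, 0,
  0, 0, 0, 0, 0, 4, 0, 0], [0, 0, 0, 0, 0, 0, 0, 0, 0, 0, 0, 0, 0, 0, 0, 0, 0, 0, 0, 4, 0, 0],
  [0, 0, 0, 0, 0, 0, 0, 0, 0, 0, 0, 0, 0, 0, 0, 0, 0, 0, 0, 4, 0, 0], [0, 0, 0, 0, 0, 0, 0, 0,
  0, 0, 0, 0, 0, 0, 0, 0, 0, 0, 0, 0, 4, 0], [0, 0, 0, 0, 0, 0, 0, 0, 0, 0, 0, 0, 0, 0, 0, 0,
  0, 0, 0, 0, 1, 0], [0, 0, 0, 0, 0, 0, 0, 0, 0, 0, 0, 0, 0, 0, 0, 0, 0, 0, 0, 0, 0, 4], [0,
  0, 0, 0, 0, 0, 0, 0, 0, 0, 0, 0, 0, 0, 0, 0, 0, 0, 0, 0, 0, 4], [0, 0, 0, 0, 0, 0, 0, 0, 0,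
  0, 0, 0, 0, 0, 0, 0, 0, 0, 0, 0, 0, 1], [0, 0, 0, 0, 0, 0, 0, 0, 0, 0, 0, 0, 0, 0, 0, 0, 0,
  0, 0, 0, 0, 1], [0, 0, 0, 0, 0, 0, 0, 0, 0, 0, 0, 0, 0, 0, 0, 0, 0, 0, 0, 0, 0, 1], []]

/-- the embeddings -/
def phi (x u : P) : P := el ((phiT.getD (nm x) []).getD (nm u) 0)

/-- the upper ends of the intervals -/
def zz (x : P) : P := el (zT.getD (nm x) 0)

lemma preUpho : PreUpho rk c := by
  constructor
  · rintro ⟨s, hs⟩
    have h1 : ∀ s ∈ covs (⊥ : P), tab colT ⊥ s = s := by decide +kernel
    exact Subtype.ext (h1 s ((atom_iff s).1 hs))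
  · intro x hx hx'
    refine ⟨zz x, ?_, phi x, ?_, ?_, ?_⟩
    · have h1 : ∀ x : P, x ≠ ⊥ → x ≠ ⊤ → (∀ y ∈ covs x, y ≤ zz x) ∧
          ∀ u : P, (∀ y ∈ covs x, y ≤ u) → zz x ≤ u := by decide +kernel
      obtain ⟨h2, h3⟩ := h1 x hx hx'
      exact ⟨fun y hy => h2 y ((cov_iff x y).1 hy), fun u hu => h3 u fun y hy => hu ((cov_iff x y).2 hy)⟩
    · have h1 : ∀ x : P, x ≠ ⊥ → x ≠ ⊤ → ∀ u : P, x ≤ u ∧ u ≤ zz x → ∀ v : P, x ≤ v ∧ v ≤ zz x →
          (phi x u ≤ phi x v ↔ u ≤ v) := by decide +kernel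
      exact h1 x hx hx'
    · have h1 : ∀ x : P, x ≠ ⊥ → x ≠ ⊤ → ∀ u : P, x ≤ u ∧ u ≤ zz x → rk u = rk x + rk (phi x u) := by
        decide +kernel
      exact h1 x hx hx'
    · have h1 : ∀ x u : P, ∀ v ∈ covs u, x ≠ ⊥ → x ≠ ⊤ → x ≤ u → v ≤ zz x →
          (phi x v ∈ covs (phi x u) ∧ tab colT (phi x u) (phi x v) = tab colT u v) := by
        decide +kernel
      intro u hu v hv huv
      obtain ⟨h2, h3⟩ := h1 x u v ((cov_iff u v).1 huv) hx hx' hu.1 hv.2
      exact ⟨(cov_iff _ _).2 h2, Subtype.ext h3⟩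

/-! ### An action of the monoid on eight states -/

/-- the action of an atom on the states -/
def act (st : Fin 8) (x : P) : Fin 8 :=
  match (st : ℕ), nm x with
  | 0, 1 => 1
  | 0, 2 => 2
  | 0, 3 => 3
  | 1, 4 => 4
  | 1, 5 => 5
  | 2, 6 => 4
  | 3, 6 => 5
  | 4, 4 => 6
  | 5, 4 => 6
  | _, _ => 7

/-- the action of an atom, as an element of the subtype -/
def acta (st : Fin 8) (a : Atom P) : Fin 8 := act st a.1

/-- a chain word from `x` to `z` -/
def path : ℕ → P → P → List P
  | 0, _, _ => []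
  | n + 1, x, z =>
    if x = z then [] else
      match (covs x).find? (fun y => decide (y ≤ z)) with
      | some y => tab colT x y :: path n y z
      | none => []

/-- the action of the chain words from `x` to `z` -/
def run (x z : P) (st : Fin 8) : Fin 8 := (path 4 x z).foldl act st

lemma run_self : ∀ (x : P) (st : Fin 8), run x x st = st := by decide +kernel

lemma run_cov : ∀ x z : P, ∀ y ∈ covs x, y ≤ z → ∀ st : Fin 8,
    run x z st = run y z (act st (tab colT x y)) := by decide +kernel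

lemma chain_run {x z : P} {w : List (Atom P)} (h : ChainWord c x z w) :
    x ≤ z ∧ (∀ st : Fin 8, w.foldl acta st = run x z st) ∧
      rk x + w.length = rk z := by
  induction h with
  | nil x => exact ⟨le_rfl, fun st => (run_self x st).symm, rfl⟩
  | @cons x y z w h hw ih =>
    obtain ⟨ih1, ih2, ih3⟩ := ih
    refine ⟨h.le.trans ih1, fun st => ?_, ?_⟩
    · rw [List.foldl_cons, ih2, run_cov x z y ((cov_iff x y).1 h) ih1]
      rfl
    · rw [isRank.2 x y h] at ih3
      rw [List.length_cons]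
      omega

/-- the map to the opposite of the monoid of the self-maps of the states -/
def F (a : Atom P) : (Function.End (Fin 8))ᵐᵒᵖ := MulOpposite.op fun st => acta st a

lemma lift_F (w : List (Atom P)) (st : Fin 8) :
    (FreeMonoid.lift F (FreeMonoid.ofList w)).unop st = w.foldl acta st := by
  induction w generalizing st with
  | nil => rfl
  | cons a w ih =>
    rw [FreeMonoid.ofList_cons, map_mul, FreeMonoid.lift_eval_of, MulOpposite.unop_mul]
    exact ih _

lemma rank_atom (s : Atom P) : rk (s : P) = 1 := by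
  have h := isRank.2 ⊥ s (bot_covBy_iff.2 s.2)
  rw [isRank.1] at h
  exact h

/-- the action of the monoid -/
def toF : Mon c →* (Function.End (Fin 8))ᵐᵒᵖ :=
  PresentedMonoid.lift F (by
    rintro u v ⟨s, t, u', v', hu, hv, rfl, rfl⟩
    apply MulOpposite.unop_injective
    funext st
    rw [lift_F, lift_F]
    have h1 : ChainWord c ⊥ ((s : P) ⊔ t) (c ⊥ s :: u') := .cons (bot_covBy_iff.2 s.2) hu
    have h2 : ChainWord c ⊥ ((s : P) ⊔ t) (c ⊥ t :: v') := .cons (bot_covBy_iff.2 t.2) hv
    rw [(chain_run h1).2.1, (chain_run h2).2.1])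

/-- the length -/
def len : Mon c →* Multiplicative ℕ :=
  PresentedMonoid.lift (fun _ => Multiplicative.ofAdd 1) (by
    rintro u v ⟨s, t, u', v', hu, hv, rfl, rfl⟩
    have key : ∀ w : List (Atom P), FreeMonoid.lift (fun _ => Multiplicative.ofAdd 1)
        (FreeMonoid.ofList w) = (Multiplicative.ofAdd w.length : Multiplicative ℕ) := by
      intro w
      induction w with
      | nil => rfl
      | cons a w ih =>
        rw [FreeMonoid.ofList_cons, map_mul, FreeMonoid.lift_eval_of, ih, List.length_cons, add_comm]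
        rfl
    have h1 : ChainWord c ⊥ ((s : P) ⊔ t) (c ⊥ s :: u') := .cons (bot_covBy_iff.2 s.2) hu
    have h2 : ChainWord c ⊥ ((s : P) ⊔ t) (c ⊥ t :: v') := .cons (bot_covBy_iff.2 t.2) hv
    have h3 := (chain_run h1).2.2
    have h4 := (chain_run h2).2.2
    rw [key, key]
    congr 1
    omega)

/-- the length as a natural number -/
def ln (u : Mon c) : ℕ := Multiplicative.toAdd (len u)

lemma ln_mul (u v : Mon c) : ln (u * v) = ln u + ln v := by
  unfold ln
  rw [map_mul, toAdd_mul]

lemma ln_of (a : Atom P) : ln (PresentedMonoid.of (Rel c) a) = 1 := rfl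

lemma ln_mk (w : List (Atom P)) : ln (PresentedMonoid.mk (Rel c) (FreeMonoid.ofList w)) = w.length := by
  induction w with
  | nil => rfl
  | cons a w ih =>
    rw [FreeMonoid.ofList_cons, map_mul, ln_mul, ih, List.length_cons, add_comm]
    rfl

lemma eq_one {u : Mon c} (h : ln u = 0) : u = 1 := by
  obtain ⟨w, rfl⟩ := PresentedMonoid.surjective_mk u
  have h1 : (FreeMonoid.toList w).length = 0 := by
    rw [← ln_mk]
    exact h
  have h2 : FreeMonoid.toList w = [] := List.eq_nil_of_length_eq_zero h1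
  have h3 : w = 1 := h2
  rw [h3, map_one]

/-- the run of an element -/
def rn (u : Mon c) (st : Fin 8) : Fin 8 := (toF u).unop st

lemma rn_mul (u v : Mon c) (st : Fin 8) : rn (u * v) st = rn v (rn u st) := by
  unfold rn
  rw [map_mul, MulOpposite.unop_mul]
  rfl

lemma rn_of (a : Atom P) (st : Fin 8) : rn (PresentedMonoid.of (Rel c) a) st = act st a.1 := rfl

lemma sink (u : Mon c) : rn u 7 = 7 := by
  obtain ⟨w, rfl⟩ := PresentedMonoid.surjective_mk u
  induction w with
  | one => rfl
  | of x => exact (by decide +kernel : ∀ x : P, act 7 x = 7) x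
  | mul x y hx hy => rw [map_mul, rn_mul, hx, hy]

/-- the atoms as elements of the monoid -/
def g (n : ℕ) (h : el n ∈ covs (⊥ : P)) : Mon c := PresentedMonoid.of (Rel c) ⟨el n, (atom_iff _).2 h⟩

lemma rel_one {n m p q r : ℕ} (hn : el n ∈ covs (⊥ : P)) (hm : el m ∈ covs (⊥ : P))
    (hp : el p ∈ covs (⊥ : P)) (hq : el q ∈ covs (⊥ : P)) (h1 : el r ∈ covs (el n)) (h2 : el r ∈ covs (el m))
    (h3 : el n ⊔ el m = el r) (h4 : tab colT (el n) (el r) = el p) (h5 : tab colT (el m) (el r) = el q)
    (h6 : tab colT ⊥ (el n) = el n) (h7 : tab colT ⊥ (el m) = el m) :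
    g n hn * g p hp = g m hm * g q hq := by
  unfold g PresentedMonoid.of
  rw [← map_mul, ← map_mul]
  refine PresentedMonoid.mk_eq_mk_of_rel ⟨⟨el n, (atom_iff _).2 hn⟩, ⟨el m, (atom_iff _).2 hm⟩,
    [c (el n) (el r)], [c (el m) (el r)], ?_, ?_, ?_, ?_⟩
  · change ChainWord c (el n) (el n ⊔ el m) [c (el n) (el r)]
    rw [h3]
    exact .cons ((cov_iff _ _).2 h1) (.nil _)
  · change ChainWord c (el m) (el n ⊔ el m) [c (el m) (el r)]
    rw [h3]
    exact .cons ((cov_iff _ _).2 h2) (.nil _)
  · have e1 : c ⊥ (el n) = (⟨el n, (atom_iff _).2 hn⟩ : Atom P) := Subtype.ext h6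
    have e2 : c (el n) (el r) = (⟨el p, (atom_iff _).2 hp⟩ : Atom P) := Subtype.ext h4
    rw [e2]
    change _ = FreeMonoid.ofList (c ⊥ (el n) :: _)
    rw [e1]
    rfl
  · have e1 : c ⊥ (el m) = (⟨el m, (atom_iff _).2 hm⟩ : Atom P) := Subtype.ext h7
    have e2 : c (el m) (el r) = (⟨el q, (atom_iff _).2 hq⟩ : Atom P) := Subtype.ext h5
    rw [e2]
    change _ = FreeMonoid.ofList (c ⊥ (el m) :: _)
    rw [e1]
    rfl

/-- **Theorem.** There are a finite graded lattice `L` whose top is the join of the atoms, and a pre-upho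
coloring `c` of `L`, such that two elements of the monoid of `c` have no greatest common left divisor. -/
theorem result : ∃ (L : Type) (_ : Finite L) (_ : Lattice L) (_ : BoundedOrder L) (rk : L → ℕ)
    (c : L → L → Atom L), IsRank rk ∧ IsLUB {s : L | IsAtom s} ⊤ ∧ PreUpho rk c ∧
      ∃ u v : Mon c, ∀ d : Mon c, ¬ IsGcld u v d := by
  refine ⟨P, inferInstance, inferInstance, inferInstance, rk, c, isRank, lub_atoms, preUpho, ?_⟩
  have m1 : el 1 ∈ covs (⊥ : P) := by decide +kernel
  have m2 : el 2 ∈ covs (⊥ : P) := by decide +kernel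
  have m3 : el 3 ∈ covs (⊥ : P) := by decide +kernel
  have m4 : el 4 ∈ covs (⊥ : P) := by decide +kernel
  have m5 : el 5 ∈ covs (⊥ : P) := by decide +kernel
  have m6 : el 6 ∈ covs (⊥ : P) := by decide +kernel
  have m7 : el 7 ∈ covs (⊥ : P) := by decide +kernel
  have r1 : g 1 m1 * g 4 m4 = g 2 m2 * g 6 m6 := by
    refine rel_one (r := 8) m1 m2 m4 m6 ?_ ?_ ?_ ?_ ?_ ?_ ?_ <;> decide +kernel
  have r2 : g 1 m1 * g 5 m5 = g 3 m3 * g 6 m6 := by
    refine rel_one (r := 9) m1 m3 m5 m6 ?_ ?_ ?_ ?_ ?_ ?_ ?_ <;> decide +kernel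
  have r3 : g 2 m2 * g 7 m7 = g 3 m3 * g 7 m7 := by
    refine rel_one (r := 10) m2 m3 m7 m7 ?_ ?_ ?_ ?_ ?_ ?_ ?_ <;> decide +kernel
  have r4 : g 4 m4 * g 4 m4 = g 5 m5 * g 4 m4 := by
    refine rel_one (r := 11) m4 m5 m4 m4 ?_ ?_ ?_ ?_ ?_ ?_ ?_ <;> decide +kernel
  refine ⟨g 1 m1 * g 4 m4 * g 4 m4, g 2 m2 * g 7 m7, ?_⟩
  rintro d ⟨⟨e, he⟩, ⟨f, hf⟩, hd⟩
  obtain ⟨p, hp⟩ := hd (g 2 m2) ⟨g 6 m6 * g 4 m4, by rw [r1, mul_assoc]⟩ ⟨_, rfl⟩
  obtain ⟨q, hq⟩ := hd (g 3 m3) ⟨g 6 m6 * g 4 m4, by
    rw [mul_assoc, r4, ← mul_assoc, r2, mul_assoc]⟩ ⟨_, r3⟩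
  have l1 : ln (g 2 m2 * g 7 m7) = 2 := by
    rw [ln_mul]
    rfl
  have l2 : ln d = 1 + ln p := by
    rw [hp, ln_mul]
    rfl
  have l3 : ln d = 1 + ln q := by
    rw [hq, ln_mul]
    rfl
  have l4 : ln d + ln f = 2 := by
    rw [← ln_mul, ← hf, l1]
  rcases Nat.eq_zero_or_pos (ln p) with h0 | h0
  · have hq0 : ln q = 0 := by omega
    rw [eq_one h0, mul_one] at hp
    rw [eq_one hq0, mul_one] at hq
    have h1 : rn (g 2 m2) 0 = rn (g 3 m3) 0 := by rw [← hp, ← hq]
    revert h1
    unfold g
    rw [rn_of, rn_of]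
    change act 0 (el 2) = act 0 (el 3) → False
    decide +kernel
  · have hf0 : ln f = 0 := by omega
    rw [eq_one hf0, mul_one] at hf
    have h1 : rn (g 1 m1 * g 4 m4 * g 4 m4) 0 = rn (g 2 m2 * g 7 m7 * e) 0 := by rw [he, hf]
    rw [rn_mul _ e, rn_mul (g 2 m2)] at h1
    have h2 : rn (g 7 m7) (rn (g 2 m2) 0) = 7 := by
      unfold g
      rw [rn_of, rn_of]
      change act (act 0 (el 2)) (el 7) = 7
      decide +kernel
    rw [h2, sink, rn_mul, rn_mul] at h1
    revert h1
    unfold g
    rw [rn_of, rn_of, rn_of]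
    change act (act (act 0 (el 1)) (el 4)) (el 4) = 7 → False
    decide +kernel

end Pool.Agent.Results.MP_4cc90a_co.NoGcd
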